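import Pool.Agent.Helper90.UG.M4
import Pool.Agent.Helper36.UG.Res
import Pool.Agent.Helper25.UG.Bv2
import Pool.Agent.Helper68.UG.M3

/-!
# UG, blocks R4, R5, M4 closed
-/

set_option autoImplicit false

open Pool.Agent.Helper69.UG

namespace Pool.Agent.Helper90.UG

/-- **R4** -/
theorem WP_bd : ∃ c0 T0 : ℝ, ∀ T, T0 ≤ T → ∀ c, Adm c0 T c → ∀ v : ℝ, v ^ 2 = c / 100 → ∀ p ∈ PR T c,
    v ^ 2 / 2 * VV T c v ≤ v * WP T c v p ∧ |WP T c v p| ≤ |v| * VV T c v :=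
  Pool.Agent.Helper36.UG.WP_bd_of Pool.Agent.Helper25.UG.PR_facts

/-- **R5** -/
theorem prod_le_VV : ∃ C c0 T0 : ℝ, 0 < C ∧ ∀ T, T0 ≤ T → ∀ c, Adm c0 T c → ∀ v : ℝ, v ^ 2 = c / 100 →
    ∏ p ∈ PR T c, (1 + (2 + |v|) ^ 2 / p + 2 * (2 + 2 * |v|) ^ 2 / p ^ 2) ≤ C * Real.exp (C * √c) * VV T c v :=
  Pool.Agent.Helper36.UG.prod_le_VV_of Pool.Agent.Helper25.UG.PR_facts

/-- **M4** -/
theorem arith : ∃ C c0 T0 : ℝ, 0 < C ∧ ∀ T, T0 ≤ T → ∀ c, Adm c0 T c → ∀ v : ℝ, v ^ 2 = c / 100 →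
    ∀ σ, 1 / 2 + 1 / Real.log T ≤ σ → σ ≤ 3 / 4 → ∀ q : ℕ → ℝ, (∀ n, |q n| ≤ |rr T c v n| * (n : ℝ) ^ (σ - 1 / 2)) →
    Summable (fun j : ℕ => ((∑ h ∈ j.divisors, gg T c h * q (j / h)) - q j) ^ 2 * (j : ℝ) ^ (-2 * σ)) ∧
    ∑' j : ℕ, ((∑ h ∈ j.divisors, gg T c h * q (j / h)) - q j) ^ 2 * (j : ℝ) ^ (-2 * σ) ≤
      C * T ^ (-(σ - 1 / 2 - 1 / Real.log T) / 16) * Real.exp (C * √c) * VV T c v :=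
  arith_of @gg_gap @gg_mul @gb_le prod_le_VV Pool.Agent.Helper25.UG.bv

end Pool.Agent.Helper90.UG
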